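import Pool.Agent.Q44.WK.Stm

/-!
# The Nullstellensatz for the forms `G a b`
-/

set_option autoImplicit false

namespace Pool.Agent.Q251.WK.NU

open MvPolynomial Pool.Agent.Q44.WK

attribute [local instance] MvPolynomial.gradedAlgebra

theorem hc_mul {K : Type} [Field K] (p q : MvPolynomial (Fin 3) K) (m n : ℕ)
    (hq : q.IsHomogeneous n) :
    homogeneousComponent (m + n) (p * q) = homogeneousComponent m p * q := by
  have h := DirectSum.coe_decompose_mul_add_of_right_mem (homogeneousSubmodule (Fin 3) K) (i := m)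
    (j := n) (a := p) (b := q) hq
  have e1 := decomposition.decompose'_apply (p * q) (m + n)
  have e2 := decomposition.decompose'_apply p m
  rw [← e1, ← e2]
  exact h

theorem map_cr {E F : Type} [CommRing E] [CommRing F] (φ : E →+* F) (v : V E) (a k : Fin 3) :
    φ (Dat.cr v a k) = Dat.cr (fun i => φ (v i)) a k := by
  fin_cases a <;> fin_cases k <;> simp [Dat.cr]

theorem map_lam {E F : Type} [CommRing E] [CommRing F] (φ : E →+* F) (D : Dat E) (x : V E)
    (j : Fin 3) : φ (D.lam x j) = (D.map φ).lam (fun i => φ (x i)) j := by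
  simp [Dat.lam, Dat.map]

theorem map_sym {E F : Type} [CommRing E] [CommRing F] (φ : E →+* F) (D : Dat E) (x : V E)
    (k l : Fin 3) : φ (D.sym x k l) = (D.map φ).sym (fun i => φ (x i)) k l := by
  simp [Dat.sym, Dat.map]

theorem map_G {E F : Type} [CommRing E] [CommRing F] (φ : E →+* F) (D : Dat E) (x : V E)
    (a b : Fin 3) : φ (D.G x a b) = (D.map φ).G (fun i => φ (x i)) a b := by
  unfold Dat.G
  rw [map_sum]
  refine Finset.sum_congr rfl fun k _ => ?_
  rw [map_sum]
  refine Finset.sum_congr rfl fun l _ => ?_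
  rw [map_mul, map_mul, map_cr, map_cr, map_sym]
  simp only [map_lam]

theorem aeval_GP {K L : Type} [Field K] [Field L] [Algebra K L] (D : Dat K) (x : V L)
    (a b : Fin 3) : aeval x (D.GP a b) = (D.map (algebraMap K L)).G x a b := by
  have h := map_G (aeval (R := K) x : MvPolynomial (Fin 3) K →ₐ[K] L).toRingHom (D.map C) X a b
  have e : (D.map C).map (aeval (R := K) x : MvPolynomial (Fin 3) K →ₐ[K] L).toRingHom =
      D.map (algebraMap K L) := by
    simp [Dat.map]
  rw [e] at h
  have e2 : (fun i => (aeval (R := K) x : MvPolynomial (Fin 3) K →ₐ[K] L).toRingHom (X i)) = x := by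
    funext i
    simp
  rw [e2] at h
  exact h

theorem hom_cr {K : Type} [Field K] (v : V (MvPolynomial (Fin 3) K)) (n : ℕ)
    (hv : ∀ i, (v i).IsHomogeneous n) (a k : Fin 3) : (Dat.cr v a k).IsHomogeneous n := by
  fin_cases a <;> fin_cases k
  · exact isHomogeneous_zero _ _ _
  · exact hv 2
  · exact (hv 1).neg
  · exact (hv 2).neg
  · exact isHomogeneous_zero _ _ _
  · exact hv 0
  · exact hv 1
  · exact (hv 0).neg
  · exact isHomogeneous_zero _ _ _

theorem hom_GP {K : Type} [Field K] (D : Dat K) (a b : Fin 3) : (D.GP a b).IsHomogeneous 4 := by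
  have h1 : ∀ j, ((D.map C).lam (X : Fin 3 → MvPolynomial (Fin 3) K) j).IsHomogeneous 1 := by
    intro j
    refine IsHomogeneous.sum _ _ _ fun i _ => ?_
    exact isHomogeneous_C_mul_X _ _
  have h2 : ∀ k l, ((D.map C).sym (X : Fin 3 → MvPolynomial (Fin 3) K) k l).IsHomogeneous 2 := by
    intro k l
    refine IsHomogeneous.sum _ _ _ fun i _ => ?_
    refine IsHomogeneous.sum _ _ _ fun j _ => ?_
    have h3 : ((D.map C).b i j k l + (D.map C).b i j l k : MvPolynomial (Fin 3) K).IsHomogeneous 0 :=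
      (isHomogeneous_C _ _).add (isHomogeneous_C _ _)
    exact (h3.mul (isHomogeneous_X _ i)).mul (isHomogeneous_X _ j)
  refine IsHomogeneous.sum _ _ _ fun k _ => ?_
  refine IsHomogeneous.sum _ _ _ fun l _ => ?_
  exact ((hom_cr _ 1 h1 a k).mul (h2 k l)).mul (hom_cr _ 1 h1 b l)

/-- **S_null** -/
theorem main : S_null := by
  intro K _ D hD
  classical
  set I : Ideal (MvPolynomial (Fin 3) K) :=
    Ideal.span (Set.range fun j : Fin 3 × Fin 3 => D.GP j.1 j.2) with hI
  have hz : ∀ x ∈ zeroLocus (AlgebraicClosure K) I, x = 0 := by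
    intro x hx
    rw [hI, zeroLocus_span] at hx
    by_contra h0
    obtain ⟨a, b, hab⟩ := hD x h0
    apply hab
    rw [← aeval_GP]
    exact hx _ ⟨(a, b), rfl⟩
  have hr : ∀ k : Fin 3, ∃ n : ℕ, (X k : MvPolynomial (Fin 3) K) ^ n ∈ I := by
    intro k
    have h1 : (X k : MvPolynomial (Fin 3) K) ∈ vanishingIdeal K (zeroLocus (AlgebraicClosure K) I) := by
      rw [mem_vanishingIdeal_iff]
      intro x hx
      rw [hz x hx]
      simp
    rw [vanishingIdeal_zeroLocus_eq_radical] at h1
    exact h1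
  choose n hn using hr
  set M : ℕ := ∑ k, n k with hM
  have hk : ∀ k : Fin 3, (X k : MvPolynomial (Fin 3) K) ^ (M + 4) ∈ I := by
    intro k
    refine Ideal.pow_mem_of_pow_mem I (hn k) ?_
    have := Finset.single_le_sum (f := n) (fun i _ => Nat.zero_le _) (Finset.mem_univ k)
    omega
  have hc : ∀ k : Fin 3, ∃ c : Fin 3 × Fin 3 → MvPolynomial (Fin 3) K,
      ∑ j, c j * D.GP j.1 j.2 = X k ^ (M + 4) := by
    intro k
    have h1 := hk k
    rw [hI, Ideal.mem_span_range_iff_exists_fun] at h1
    exact h1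
  choose c hc using hc
  refine ⟨M, fun a => homogeneousComponent M (c a.1 a.2), fun a =>
    homogeneousComponent_isHomogeneous _ _, fun k => ?_⟩
  have h1 := congrArg (homogeneousComponent (M + 4)) (hc k)
  rw [map_sum, homogeneousComponent_eq_self (isHomogeneous_X_pow _ _)] at h1
  rw [← h1]
  refine Finset.sum_congr rfl fun j _ => ?_
  exact (hc_mul _ _ M 4 (hom_GP D j.1 j.2)).symm

end Pool.Agent.Q251.WK.NU
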